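import Mathlib

/-!
# Project OC, module SS3: the sum of `1/√m` over a sparse set
-/

set_option autoImplicit false

open Finset

namespace Pool.Agent.helper7.OC

private theorem ss3_two_rpow (θ : ℝ) (hθ1 : θ ≤ 1 / 4) : (2 : ℝ) ^ θ ≤ 1.19 := by
  have h1 : (2 : ℝ) ^ θ ≤ (2 : ℝ) ^ (1 / 4 : ℝ) :=
    Real.rpow_le_rpow_of_exponent_le (by norm_num) hθ1
  have h2 : (2 : ℝ) ^ (1 / 4 : ℝ) ≤ 1.19 := by
    have h3 : ((1.19 : ℝ) ^ (4 : ℝ)) ^ (1 / 4 : ℝ) = 1.19 := by
      rw [← Real.rpow_mul (by norm_num)]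
      norm_num
    rw [← h3]
    apply Real.rpow_le_rpow (by norm_num) _ (by norm_num)
    have h4 : ((1.19 : ℝ) ^ (4 : ℝ)) = (1.19 : ℝ) ^ (4 : ℕ) := by
      rw [← Real.rpow_natCast]
      norm_num
    rw [h4]
    norm_num
  exact h1.trans h2

theorem sum_sparse (E : Finset ℕ) (B θ : ℝ) (hB : 0 ≤ B) (hθ : 0 ≤ θ) (hθ1 : θ ≤ 1 / 4)
    (h : ∀ R : ℕ, ((E.filter fun m => m ≤ R).card : ℝ) ≤ B * (R : ℝ) ^ θ) (Q : ℕ) (hQ : 1 ≤ Q) :
    ∑ m ∈ E.filter (fun m => Q < m), 1 / √(m : ℝ) ≤ 8 * B * (Q : ℝ) ^ (θ - 1 / 2) := by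
  induction hn : (E.sup id + 1 - Q) using Nat.strong_induction_on generalizing Q with
  | _ n ih =>
    have hQr : (1 : ℝ) ≤ (Q : ℝ) := by exact_mod_cast hQ
    have hQ0 : (0 : ℝ) < (Q : ℝ) := by linarith
    have hpos : (0 : ℝ) ≤ (Q : ℝ) ^ (θ - 1 / 2) := Real.rpow_nonneg hQ0.le _
    by_cases hE : E.sup id ≤ Q
    · have : E.filter (fun m => Q < m) = ∅ := by
        apply Finset.filter_eq_empty_iff.2
        intro m hm hQm
        have : id m ≤ E.sup id := Finset.le_sup hm
        simp only [id] at this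
        omega
      rw [this]
      simp only [Finset.sum_empty]
      positivity
    · push Not at hE
      have ih2 := ih (E.sup id + 1 - 2 * Q) (by omega) (2 * Q) (by omega) rfl
      have hsplit : E.filter (fun m => Q < m) ⊆
          (E.filter (fun m => m ≤ 2 * Q)).filter (fun m => Q < m) ∪
            E.filter (fun m => 2 * Q < m) := by
        intro m hm
        simp only [Finset.mem_filter, Finset.mem_union] at hm ⊢
        rcases Nat.lt_or_ge (2 * Q) m with h1 | h1
        · right; exact ⟨hm.1, h1⟩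
        · left; exact ⟨⟨hm.1, h1⟩, hm.2⟩
      have h1 : ∑ m ∈ E.filter (fun m => Q < m), 1 / √(m : ℝ) ≤
          ∑ m ∈ (E.filter (fun m => m ≤ 2 * Q)).filter (fun m => Q < m), 1 / √(m : ℝ) +
            ∑ m ∈ E.filter (fun m => 2 * Q < m), 1 / √(m : ℝ) := by
        refine (Finset.sum_le_sum_of_subset_of_nonneg hsplit ?_).trans ?_
        · intro i _ _; positivity
        · apply le_of_eq
          apply Finset.sum_union
          rw [Finset.disjoint_left]
          intro m hm hm'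
          simp only [Finset.mem_filter] at hm hm'
          omega
      have h2 : ∑ m ∈ (E.filter (fun m => m ≤ 2 * Q)).filter (fun m => Q < m), 1 / √(m : ℝ) ≤
          (B * ((2 * Q : ℕ) : ℝ) ^ θ) * (1 / √(Q : ℝ)) := by
        calc ∑ m ∈ (E.filter (fun m => m ≤ 2 * Q)).filter (fun m => Q < m), 1 / √(m : ℝ)
            ≤ ∑ _m ∈ (E.filter (fun m => m ≤ 2 * Q)).filter (fun m => Q < m), 1 / √(Q : ℝ) := by
              apply Finset.sum_le_sum
              intro m hm
              simp only [Finset.mem_filter] at hm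
              apply one_div_le_one_div_of_le
              · exact Real.sqrt_pos.2 hQ0
              · apply Real.sqrt_le_sqrt
                exact_mod_cast hm.2.le
          _ = (((E.filter (fun m => m ≤ 2 * Q)).filter (fun m => Q < m)).card : ℝ) *
                (1 / √(Q : ℝ)) := by
              rw [Finset.sum_const, nsmul_eq_mul]
          _ ≤ (B * ((2 * Q : ℕ) : ℝ) ^ θ) * (1 / √(Q : ℝ)) := by
              apply mul_le_mul_of_nonneg_right _ (by positivity)
              refine le_trans ?_ (h (2 * Q))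
              exact_mod_cast Finset.card_filter_le _ _
      have h3 : ((2 * Q : ℕ) : ℝ) ^ θ * (1 / √(Q : ℝ)) = (2 : ℝ) ^ θ * (Q : ℝ) ^ (θ - 1 / 2) := by
        push_cast
        rw [Real.mul_rpow (by norm_num) hQ0.le, Real.sqrt_eq_rpow, Real.rpow_sub hQ0]
        ring
      have h4 : ((2 * Q : ℕ) : ℝ) ^ (θ - 1 / 2) =
          (2 : ℝ) ^ θ / √2 * (Q : ℝ) ^ (θ - 1 / 2) := by
        push_cast
        rw [Real.mul_rpow (by norm_num) hQ0.le, Real.rpow_sub (by norm_num : (0 : ℝ) < 2),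
          ← Real.sqrt_eq_rpow]
      have h5 : (2 : ℝ) ^ θ + 8 * ((2 : ℝ) ^ θ / √2) ≤ 8 := by
        have h6 := ss3_two_rpow θ hθ1
        have h7 : (1.414 : ℝ) ≤ √2 := by
          apply Real.le_sqrt_of_sq_le
          norm_num
        have h8 : (2 : ℝ) ^ θ / √2 ≤ 1.19 / 1.414 := by
          apply div_le_div₀ (by norm_num) h6 (by norm_num) h7
        have h9 : (1.19 : ℝ) + 8 * (1.19 / 1.414) ≤ 8 := by norm_num
        linarith
      calc ∑ m ∈ E.filter (fun m => Q < m), 1 / √(m : ℝ)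
          ≤ (B * ((2 * Q : ℕ) : ℝ) ^ θ) * (1 / √(Q : ℝ)) +
              8 * B * ((2 * Q : ℕ) : ℝ) ^ (θ - 1 / 2) := by linarith
        _ = B * (Q : ℝ) ^ (θ - 1 / 2) * ((2 : ℝ) ^ θ + 8 * ((2 : ℝ) ^ θ / √2)) := by
              rw [h4, mul_assoc B, h3]
              ring
        _ ≤ B * (Q : ℝ) ^ (θ - 1 / 2) * 8 := by
              apply mul_le_mul_of_nonneg_left h5
              positivity
        _ = 8 * B * (Q : ℝ) ^ (θ - 1 / 2) := by ring

end Pool.Agent.helper7.OC
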